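import Mathlib
import Pool.Agent.helper82.SB.Shared

set_option autoImplicit false

/-!
# SB-E: inserting a tiny edge (helper69 for helper82, MP_f4492a_gt)
-/

namespace Pool.Agent.helper69.SB

open Matrix Filter Topology Pool.Agent.helper82.SB

/-! ### determinants and dot products -/

theorem det3_cyc (a b c : E3) : det3 a b c = det3 b c a := by
  unfold det3; ring

theorem det3_add_smul (a b c d : E3) (r : ℝ) : det3 (a + r • b) c d = det3 a c d + r * det3 b c d := by
  unfold det3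
  simp only [Pi.add_apply, Pi.smul_apply, smul_eq_mul]
  ring

theorem dot_add (v a b : E3) : v ⬝ᵥ (a + b) = v ⬝ᵥ a + v ⬝ᵥ b := dotProduct_add _ _ _

theorem dot_smul (v a : E3) (r : ℝ) : v ⬝ᵥ (r • a) = r * (v ⬝ᵥ a) := by
  rw [dotProduct_smul, smul_eq_mul]

theorem smul_dot (v a : E3) (r : ℝ) : (r • v) ⬝ᵥ a = r * (v ⬝ᵥ a) := by
  rw [smul_dotProduct, smul_eq_mul]

theorem abs_dot_le (v w : E3) : |v ⬝ᵥ w| ≤ 3 * (‖v‖ * ‖w‖) := by
  rw [dot_expand]
  have h : ∀ i, |v i * w i| ≤ ‖v‖ * ‖w‖ := fun i => by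
    rw [abs_mul]
    exact mul_le_mul (norm_le_pi_norm v i) (norm_le_pi_norm w i) (abs_nonneg _) (norm_nonneg _)
  have h0 := h 0
  have h1 := h 1
  have h2 := h 2
  calc |v 0 * w 0 + v 1 * w 1 + v 2 * w 2| ≤ |v 0 * w 0| + |v 1 * w 1| + |v 2 * w 2| :=
        abs_add_three _ _ _
    _ ≤ _ := by linarith

theorem det_smul_eq (a b c v : E3) : det3 a b c • v =
    (v ⬝ᵥ a) • crossProduct b c + (v ⬝ᵥ b) • crossProduct c a + (v ⬝ᵥ c) • crossProduct a b := by
  ext i
  fin_cases i <;>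
  · simp [det3, dot_expand, cross_apply]
    ring

theorem exists_dual {a b c : E3} (h : det3 a b c ≠ 0) : ∃ u : E3, u ⬝ᵥ a = 1 ∧ u ⬝ᵥ b = 0 := by
  refine ⟨(det3 a b c)⁻¹ • crossProduct b c, ?_, ?_⟩
  · rw [smul_dot, cross_dot, ← det3_cyc a b c, inv_mul_cancel₀ h]
  · rw [smul_dot, cross_dot]
    have : det3 b c b = 0 := by unfold det3; ring
    rw [this, mul_zero]

/-- three independent vectors are not simultaneously nearly orthogonal to a vector -/
theorem eventually_three {a b c : E3} (h : det3 a b c ≠ 0) : ∀ᶠ r : ℝ in 𝓝[>] 0, ∀ v : E3,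
    ¬ (|v ⬝ᵥ a| < r * ‖v‖ ∧ |v ⬝ᵥ b| < r * ‖v‖ ∧ |v ⬝ᵥ c| < r * ‖v‖) := by
  set C := ‖crossProduct b c‖ + ‖crossProduct c a‖ + ‖crossProduct a b‖ with hC
  have hC0 : 0 ≤ C := by positivity
  have hd : 0 < |det3 a b c| := abs_pos.2 h
  have hpos : 0 < |det3 a b c| / (C + 1) := by positivity
  filter_upwards [Ioo_mem_nhdsGT hpos] with r hr v hv
  obtain ⟨h1, h2, h3⟩ := hv
  have hr0 : 0 < r := hr.1
  have hv0 : 0 < ‖v‖ := by
    by_contra h0
    have : r * ‖v‖ ≤ 0 := mul_nonpos_of_nonneg_of_nonpos hr0.le (not_lt.1 h0)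
    linarith [abs_nonneg (v ⬝ᵥ a)]
  have e := congrArg norm (det_smul_eq a b c v)
  rw [norm_smul, Real.norm_eq_abs] at e
  have e2 : ‖(v ⬝ᵥ a) • crossProduct b c + (v ⬝ᵥ b) • crossProduct c a
      + (v ⬝ᵥ c) • crossProduct a b‖ ≤ r * ‖v‖ * C := by
    refine (norm_add₃_le).trans ?_
    rw [norm_smul, norm_smul, norm_smul, Real.norm_eq_abs, Real.norm_eq_abs, Real.norm_eq_abs]
    have i1 := mul_le_mul_of_nonneg_right h1.le (norm_nonneg (crossProduct b c))
    have i2 := mul_le_mul_of_nonneg_right h2.le (norm_nonneg (crossProduct c a))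
    have i3 := mul_le_mul_of_nonneg_right h3.le (norm_nonneg (crossProduct a b))
    rw [hC]
    linarith
  have e3 : |det3 a b c| * ‖v‖ ≤ r * C * ‖v‖ := by
    rw [e]; linarith
  have e4 : |det3 a b c| ≤ r * C := le_of_mul_le_mul_right e3 hv0
  have e5 : r * (C + 1) < |det3 a b c| := by
    have := hr.2
    rwa [lt_div_iff₀ (by positivity)] at this
  nlinarith

/-! ### signs -/

theorem D_congr {s t s' t' : ℝ} (hs : 0 < s * s') (ht : 0 < t * t') : D s t = D s' t' := by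
  classical
  unfold D
  have h1 : 0 < s ↔ 0 < s' := by
    constructor
    · intro h; exact (pos_iff_pos_of_mul_pos hs).1 h
    · intro h; exact (pos_iff_pos_of_mul_pos hs).2 h
  have h2 : t < 0 ↔ t' < 0 := by
    constructor
    · intro h; exact (neg_iff_neg_of_mul_pos ht).1 h
    · intro h; exact (neg_iff_neg_of_mul_pos ht).2 h
  simp only [h1, h2]

theorem D_smul {s t c : ℝ} (hc : 0 < c) : D (c * s) (c * t) = D s t := by
  classical
  unfold D
  have h1 : 0 < c * s ↔ 0 < s := by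
    constructor
    · intro h; exact (pos_iff_pos_of_mul_pos h).1 hc
    · intro h; positivity
  have h2 : c * t < 0 ↔ t < 0 := by
    constructor
    · intro h
      by_contra h'
      have := mul_nonneg hc.le (not_lt.1 h')
      linarith
    · intro h; exact mul_neg_of_pos_of_neg hc h
  simp only [h1, h2]

theorem maxima_smul (n : ℕ) (P : ℤ → E3) (v : E3) {c : ℝ} (hc : 0 < c) :
    maxima n P (c • v) = maxima n P v := by
  rw [maxima_eq_sum, maxima_eq_sum]
  refine Finset.sum_congr rfl (fun i _ => ?_)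
  rw [smul_dot, smul_dot, D_smul hc]

open scoped Classical in
theorem D_neg {s t : ℝ} (hs : s ≠ 0) (ht : t ≠ 0) :
    (D s t : ℤ) + (if 0 < t then 1 else 0) = D (-s) (-t) + (if 0 < s then 1 else 0) := by
  unfold D
  rcases lt_or_gt_of_ne hs with h1 | h1 <;> rcases lt_or_gt_of_ne ht with h2 | h2
  · simp [h1, h2, not_lt.2 h1.le, not_lt.2 h2.le]
  · simp [h1, h2, not_lt.2 h1.le, not_lt.2 h2.le]
  · simp [h1, h2, not_lt.2 h1.le, not_lt.2 h2.le]
  · simp [h1, h2, not_lt.2 h1.le, not_lt.2 h2.le]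

theorem maxima_neg {n : ℕ} {P : ℤ → E3} (h : ∀ i, P (i + n) = P i) {v : E3}
    (hv : ∀ i, v ⬝ᵥ edge P i ≠ 0) : maxima n P (-v) = maxima n P v := by
  classical
  have e : ∀ i, (-v) ⬝ᵥ edge P i = -(v ⬝ᵥ edge P i) := fun i => neg_dotProduct _ _
  have h1 : (∑ i ∈ Finset.range n, ((D (v ⬝ᵥ edge P ((i : ℤ) - 1)) (v ⬝ᵥ edge P i) : ℤ)
      + (if 0 < v ⬝ᵥ edge P i then 1 else 0))) =
      ∑ i ∈ Finset.range n, ((D (-(v ⬝ᵥ edge P ((i : ℤ) - 1))) (-(v ⬝ᵥ edge P i)) : ℤ)
      + (if 0 < v ⬝ᵥ edge P ((i : ℤ) - 1) then 1 else 0)) :=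
    Finset.sum_congr rfl (fun i _ => D_neg (hv _) (hv _))
  rw [Finset.sum_add_distrib, Finset.sum_add_distrib] at h1
  have h2 := sum_shift n (fun i : ℤ => (if 0 < v ⬝ᵥ edge P i then (1 : ℤ) else 0)) (fun i => by
    simp only [edge_per h]) (-1)
  simp only [← sub_eq_add_neg] at h2
  rw [h2] at h1
  have h3 := add_right_cancel h1
  rw [maxima_eq_sum, maxima_eq_sum]
  simp only [e]
  exact_mod_cast h3.symm

/-! ### flipping the sign of one edge -/

/-- If `v` is nearly orthogonal to `e_m`, the sign at `m` can be flipped keeping all others. -/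
theorem exists_flip (n m : ℕ) (P : ℤ → E3) (hgen : Gen n P) (hn : 4 ≤ n) (hm : m < n) :
    ∃ ε : ℝ, 0 < ε ∧ ∀ v : E3, (∀ i : ℕ, i < n → v ⬝ᵥ edge P i ≠ 0) →
      |v ⬝ᵥ edge P m| ≤ ε * ‖v‖ → ∃ v' : E3, v' ⬝ᵥ edge P m = -(v ⬝ᵥ edge P m) ∧
        ∀ i : ℕ, i < n → i ≠ m → 0 < (v ⬝ᵥ edge P i) * (v' ⬝ᵥ edge P i) := by
  classical
  -- any three different indices below `n` are independent
  have hind : ∀ i j k : ℕ, i < n → j < n → k < n → i ≠ j → j ≠ k → i ≠ k →
      det3 (edge P i) (edge P j) (edge P k) ≠ 0 := by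
    have key : ∀ i j k : ℕ, i < j → j < k → k < n →
        det3 (edge P i) (edge P j) (edge P k) ≠ 0 := fun i j k h1 h2 h3 =>
      hgen i j k (by omega) (by omega) (by omega)
    have hsw : ∀ a b c : E3, det3 a b c = - det3 b a c := fun a b c => by unfold det3; ring
    have hrev : ∀ a b c : E3, det3 a b c = - det3 c b a := fun a b c => by unfold det3; ring
    have hsw2 : ∀ a b c : E3, det3 a b c = - det3 a c b := fun a b c => by unfold det3; ring
    intro i j k hi hj hk hij hjk hik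
    rcases Nat.lt_or_ge i j with h1 | h1 <;> rcases Nat.lt_or_ge j k with h2 | h2 <;>
      rcases Nat.lt_or_ge i k with h3 | h3
    · exact key i j k h1 h2 hk
    · omega
    · -- i < k < j
      rw [hsw2]
      exact neg_ne_zero.2 (key i k j h3 (by omega) hj)
    · -- k < i < j
      rw [det3_cyc, det3_cyc]
      exact key k i j (by omega) h1 hj
    · -- j < i < k
      rw [hsw]
      exact neg_ne_zero.2 (key j i k (by omega) h3 hk)
    · -- j < k < i
      rw [det3_cyc]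
      exact key j k i h2 (by omega) hi
    · omega
    · -- k < j < i
      rw [hrev]
      exact neg_ne_zero.2 (key k j i (by omega) (by omega) hi)
  obtain ⟨c, hc0, hc⟩ : ∃ c : ℝ, 0 < c ∧ ∀ i j k : ℕ, i < n → j < n → k < n → i ≠ j → j ≠ k →
      i ≠ k → ∀ v : E3, ¬ (|v ⬝ᵥ edge P i| < c * ‖v‖ ∧ |v ⬝ᵥ edge P j| < c * ‖v‖ ∧
        |v ⬝ᵥ edge P k| < c * ‖v‖) := by
    have h1 : ∀ᶠ r : ℝ in 𝓝[>] 0, ∀ i ∈ Finset.range n, ∀ j ∈ Finset.range n,
        ∀ k ∈ Finset.range n, i ≠ j → j ≠ k → i ≠ k → ∀ v : E3,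
          ¬ (|v ⬝ᵥ edge P i| < r * ‖v‖ ∧ |v ⬝ᵥ edge P j| < r * ‖v‖ ∧
            |v ⬝ᵥ edge P k| < r * ‖v‖) := by
      rw [Filter.eventually_all_finset]
      intro i hi
      rw [Filter.eventually_all_finset]
      intro j hj
      rw [Filter.eventually_all_finset]
      intro k hk
      by_cases h : i ≠ j ∧ j ≠ k ∧ i ≠ k
      · filter_upwards [eventually_three (hind i j k (Finset.mem_range.1 hi)
          (Finset.mem_range.1 hj) (Finset.mem_range.1 hk) h.1 h.2.1 h.2.2)] with r hr _ _ _ v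
        exact hr v
      · exact Filter.Eventually.of_forall fun r h1 h2 h3 => absurd ⟨h1, h2, h3⟩ h
    obtain ⟨c, hc, hc0⟩ := (h1.and self_mem_nhdsWithin).exists
    exact ⟨c, hc0, fun i j k hi hj hk h1 h2 h3 v => hc i (Finset.mem_range.2 hi) j
      (Finset.mem_range.2 hj) k (Finset.mem_range.2 hk) h1 h2 h3 v⟩
  -- dual vectors
  have hu : ∀ j : ℕ, ∃ u : E3, j < n → j ≠ m → u ⬝ᵥ edge P m = 1 ∧ u ⬝ᵥ edge P j = 0 := by
    intro j
    by_cases h : j < n ∧ j ≠ m
    · obtain ⟨k, hk, h1, h2⟩ : ∃ k : ℕ, k < n ∧ m ≠ k ∧ j ≠ k := by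
        by_cases e0 : m ≠ 0 ∧ j ≠ 0
        · exact ⟨0, by omega, e0.1, e0.2⟩
        · by_cases e1 : m ≠ 1 ∧ j ≠ 1
          · exact ⟨1, by omega, e1.1, e1.2⟩
          · exact ⟨2, by omega, by omega, by omega⟩
      obtain ⟨u, h3, h4⟩ := exists_dual (hind m j k hm h.1 hk h.2.symm h2 h1)
      exact ⟨u, fun _ _ => ⟨h3, h4⟩⟩
    · exact ⟨0, fun h1 h2 => absurd ⟨h1, h2⟩ h⟩
  choose u hu using hu
  set K : ℝ := ∑ j ∈ Finset.range n, ∑ i ∈ Finset.range n, ‖u j‖ * ‖edge P i‖ with hK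
  have hK0 : 0 ≤ K := Finset.sum_nonneg fun j _ => Finset.sum_nonneg fun i _ => by positivity
  have hKle : ∀ j i : ℕ, j < n → i < n → ‖u j‖ * ‖edge P i‖ ≤ K := by
    intro j i hj hi
    have h1 : ‖u j‖ * ‖edge P i‖ ≤ ∑ i ∈ Finset.range n, ‖u j‖ * ‖edge P i‖ :=
      Finset.single_le_sum (f := fun i : ℕ => ‖u j‖ * ‖edge P i‖) (fun i _ => by positivity)
        (Finset.mem_range.2 hi)
    exact h1.trans (Finset.single_le_sum
      (f := fun j : ℕ => ∑ i ∈ Finset.range n, ‖u j‖ * ‖edge P i‖)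
      (fun j _ => Finset.sum_nonneg fun i _ => by positivity) (Finset.mem_range.2 hj))
  refine ⟨c / (6 * K + 2), by positivity, fun v hv hx => ?_⟩
  have hv0 : 0 < ‖v‖ := by
    rw [norm_pos_iff]
    rintro rfl
    exact hv m hm (zero_dotProduct _)
  obtain ⟨j, hj, hjm, hbig⟩ : ∃ j : ℕ, j < n ∧ j ≠ m ∧ ∀ i : ℕ, i < n → i ≠ m → i ≠ j →
      c * ‖v‖ ≤ |v ⬝ᵥ edge P i| := by
    have hxc : |v ⬝ᵥ edge P m| < c * ‖v‖ := by
      refine lt_of_le_of_lt hx (mul_lt_mul_of_pos_right ?_ hv0)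
      rw [div_lt_iff₀ (by positivity)]
      nlinarith
    by_cases h : ∃ j : ℕ, j < n ∧ j ≠ m ∧ |v ⬝ᵥ edge P j| < c * ‖v‖
    · obtain ⟨j, hj, hjm, hjs⟩ := h
      refine ⟨j, hj, hjm, fun i hi him hij => ?_⟩
      by_contra hlt
      exact hc m j i hm hj hi hjm.symm hij.symm him.symm v ⟨hxc, hjs, not_le.1 hlt⟩
    · push Not at h
      obtain ⟨j, hj, hjm⟩ : ∃ j : ℕ, j < n ∧ j ≠ m := by
        by_cases e0 : m = 0
        · exact ⟨1, by omega, by omega⟩
        · exact ⟨0, by omega, by omega⟩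
      exact ⟨j, hj, hjm, fun i hi him _ => h i hi him⟩
  obtain ⟨hu1, hu2⟩ := hu j hj hjm
  set x := v ⬝ᵥ edge P m with hxdef
  refine ⟨v - (2 * x) • u j, ?_, fun i hi him => ?_⟩
  · rw [sub_dotProduct, smul_dot, hu1, ← hxdef]; ring
  · rw [sub_dotProduct, smul_dot]
    by_cases hij : i = j
    · subst hij
      rw [hu2, mul_zero, sub_zero]
      exact mul_self_pos.2 (hv i hi)
    · have h1 := hbig i hi him hij
      have h2 : |2 * x * (u j ⬝ᵥ edge P i)| < c * ‖v‖ := by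
        rw [abs_mul, abs_mul, abs_two]
        have h3 := abs_dot_le (u j) (edge P i)
        have h4 : |u j ⬝ᵥ edge P i| ≤ 3 * K := h3.trans (by
          have := hKle j i hj hi; linarith)
        have h5 : |x| * |u j ⬝ᵥ edge P i| ≤ (c / (6 * K + 2) * ‖v‖) * (3 * K) :=
          mul_le_mul hx h4 (abs_nonneg _) (by positivity)
        have h6 : 2 * ((c / (6 * K + 2) * ‖v‖) * (3 * K)) < c * ‖v‖ := by
          have e : 2 * ((c / (6 * K + 2) * ‖v‖) * (3 * K)) = c * ‖v‖ * (6 * K / (6 * K + 2)) := by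
            field_simp; ring
          rw [e]
          have : 6 * K / (6 * K + 2) < 1 := by
            rw [div_lt_one (by positivity)]; linarith
          have hcv : 0 < c * ‖v‖ := by positivity
          nlinarith
        linarith
      have h7 := lt_of_lt_of_le h2 h1
      set y := v ⬝ᵥ edge P i with hy
      set t := 2 * x * (u j ⬝ᵥ edge P i) with ht
      rcases lt_or_gt_of_ne (hv i hi) with h8 | h8
      · have h8' : y < 0 := h8
        rw [abs_of_neg h8'] at h7
        have := abs_lt.1 h7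
        exact mul_pos_of_neg_of_neg h8' (by linarith [this.1])
      · have h8' : 0 < y := h8
        rw [abs_of_pos h8'] at h7
        have := abs_lt.1 h7
        exact mul_pos h8' (by linarith [this.2])

/-! ### counting with booleans -/

/-- `D` for signs. -/
def B (p q : Bool) : ℕ := if p && !q then 1 else 0

/-- the sign of a real number -/
noncomputable def sg (x : ℝ) : Bool := by
  classical exact decide (0 < x)

theorem sg_pos {x : ℝ} (h : 0 < x) : sg x = true := by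
  unfold sg; simp [h]

theorem sg_neg {x : ℝ} (h : x < 0) : sg x = false := by
  unfold sg; simp [h.le]

theorem sg_flip {x : ℝ} (h : x ≠ 0) : sg (-x) = !sg x := by
  rcases lt_or_gt_of_ne h with h1 | h1
  · rw [sg_neg h1, sg_pos (neg_pos.2 h1)]; rfl
  · rw [sg_pos h1, sg_neg (neg_neg_iff_pos.2 h1)]; rfl

theorem sg_congr {x y : ℝ} (h : 0 < x * y) : sg x = sg y := by
  rcases pos_and_pos_or_neg_and_neg_of_mul_pos h with h1 | h1
  · rw [sg_pos h1.1, sg_pos h1.2]
  · rw [sg_neg h1.1, sg_neg h1.2]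

theorem D_eq {s t : ℝ} (ht : t ≠ 0) : D s t = B (sg s) (sg t) := by
  classical
  unfold D B sg
  rcases lt_or_gt_of_ne ht with h1 | h1
  · by_cases h : 0 < s
    · simp [h, h1, h1.le]
    · simp [h]
  · by_cases h : 0 < s
    · simp [h, h1, h1.le]
    · simp [h]

theorem B_plain : ∀ A x y z d : Bool, (y = x ∨ y = z) →
    B A x + B x y + B y z + B z d = B A x + B x z + B z d := by decide

theorem B_same : ∀ A x y z d : Bool, y ≠ x → y ≠ z → A = x →
    B A x + B x y + B y z + B z d = B A y + B y z + B z d := by decide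

theorem B_extra : ∀ A x y z d t : Bool, y ≠ x → y ≠ z → A ≠ x →
    B A x + B x y + B y z + B z d = (B A t + B t z + B z d) + 1 := by decide

/-! ### the two counts -/

/-- the common part of the two counts -/
noncomputable def common (k : ℕ) (P : ℤ → E3) (v : E3) : ℕ :=
  ∑ i ∈ Finset.range k, D (v ⬝ᵥ edge P i) (v ⬝ᵥ edge P ((i : ℤ) + 1))

theorem maxima_eq_sum' {n : ℕ} {P : ℤ → E3} (h : ∀ i, P (i + n) = P i) (v : E3) :
    maxima n P v = ∑ i ∈ Finset.range n, D (v ⬝ᵥ edge P i) (v ⬝ᵥ edge P ((i : ℤ) + 1)) := by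
  rw [maxima_eq_sum]
  have h1 := sum_shift n (fun i : ℤ => D (v ⬝ᵥ edge P (i - 1)) (v ⬝ᵥ edge P i)) (by
    intro i
    have e1 := edge_per h (i - 1)
    have e2 := edge_per h i
    rw [show i + n - 1 = i - 1 + n by ring, e1, e2]) 1
  rw [← h1]
  exact Finset.sum_congr rfl (fun i _ => by rw [add_sub_cancel_right])

theorem maxima_P (k : ℕ) (P : ℤ → E3) (h : ∀ i, P (i + (k + 3 : ℕ)) = P i) (v : E3) :
    maxima (k + 3) P v = common k P v + D (v ⬝ᵥ edge P k) (v ⬝ᵥ edge P (k + 1))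
      + D (v ⬝ᵥ edge P (k + 1)) (v ⬝ᵥ edge P (k + 2)) + D (v ⬝ᵥ edge P (k + 2)) (v ⬝ᵥ edge P 0) := by
  rw [maxima_eq_sum' h, Finset.sum_range_succ, Finset.sum_range_succ, Finset.sum_range_succ]
  have h1 : edge P 0 = edge P ((k : ℤ) + 2 + 1) := by
    have := edge_per h 0
    rw [← this]
    congr 1
    push_cast; ring
  rw [h1]
  push_cast
  rw [show (k : ℤ) + 1 + 1 = k + 2 by ring]
  rfl

theorem maxima_cut (k : ℕ) (hk : 1 ≤ k) (P : ℤ → E3) (h : ∀ i, P (i + (k + 3 : ℕ)) = P i)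
    (v a b c : E3) (α β l : ℝ) (ha : a = edge P (k + 1)) (hb : b = edge P (k + 2)) :
    maxima (k + 3 + 1) (cutP (k + 3) P (P (((k + 3 : ℕ) : ℤ) - 1) - α • a + l • c)
      (P (((k + 3 : ℕ) : ℤ) - 1) + β • b)) v = common k P v
      + D (v ⬝ᵥ edge P k) (v ⬝ᵥ ((1 - α) • a + l • c))
      + D (v ⬝ᵥ ((1 - α) • a + l • c)) (v ⬝ᵥ (α • a + β • b - l • c))
      + D (v ⬝ᵥ (α • a + β • b - l • c)) (v ⬝ᵥ ((1 - β) • b))
      + D (v ⬝ᵥ ((1 - β) • b)) (v ⬝ᵥ edge P 0) := by
  set x : E3 := P (((k + 3 : ℕ) : ℤ) - 1) - α • a + l • c with hx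
  set y : E3 := P (((k + 3 : ℕ) : ℤ) - 1) + β • b with hy
  set Q := cutP (k + 3) P x y with hQ
  have hper : ∀ i : ℤ, Q (i + (k + 3 + 1 : ℕ)) = Q i := by
    intro i
    rw [hQ]
    unfold cutP
    have e : (i + ((k + 3 + 1 : ℕ) : ℤ)) % (((k + 3 : ℕ) : ℤ) + 1) = i % (((k + 3 : ℕ) : ℤ) + 1) := by
      push_cast
      rw [show i + ((k : ℤ) + 3 + 1) = i + ((k : ℤ) + 3 + 1) * 1 by ring, Int.add_mul_emod_self_left]
    rw [e]
  have hsmall : ∀ i : ℤ, 0 ≤ i → i < k + 2 → Q i = P i := by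
    intro i h0 h1
    rw [hQ]
    unfold cutP
    have e : i % (((k + 3 : ℕ) : ℤ) + 1) = i := Int.emod_eq_of_lt h0 (by push_cast; omega)
    rw [e, if_neg (by push_cast; omega), if_neg (by push_cast; omega)]
  have hx' : Q (k + 2) = x := by
    rw [hQ]
    unfold cutP
    have e : ((k : ℤ) + 2) % (((k + 3 : ℕ) : ℤ) + 1) = k + 2 :=
      Int.emod_eq_of_lt (by positivity) (by push_cast; omega)
    rw [e, if_pos (by push_cast; omega)]
  have hy' : Q (k + 3) = y := by
    rw [hQ]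
    unfold cutP
    have e : ((k : ℤ) + 3) % (((k + 3 : ℕ) : ℤ) + 1) = k + 3 :=
      Int.emod_eq_of_lt (by positivity) (by push_cast; omega)
    rw [e, if_neg (by push_cast; omega), if_pos (by push_cast; omega)]
  have h4 : Q (k + 4) = P 0 := by
    have := hper 0
    rw [hsmall 0 le_rfl (by positivity)] at this
    rw [← this]
    congr 1
    push_cast; ring
  have h5 : Q (k + 5) = P 1 := by
    have := hper 1
    rw [hsmall 1 (by norm_num) (by omega)] at this
    rw [← this]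
    congr 1
    push_cast; ring
  have hedge : ∀ i : ℤ, 0 ≤ i → i < k + 1 → edge Q i = edge P i := by
    intro i h0 h1
    unfold edge
    rw [hsmall i h0 (by omega), hsmall (i + 1) (by omega) (by omega)]
  have e1 : edge Q (k + 1) = (1 - α) • a + l • c := by
    unfold edge
    rw [show (k : ℤ) + 1 + 1 = k + 2 by ring, hx', hsmall (k + 1) (by omega) (by omega), hx, ha]
    unfold edge
    rw [show (((k + 3 : ℕ) : ℤ) - 1) = k + 2 by push_cast; ring,
      show (k : ℤ) + 1 + 1 = k + 2 by ring]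
    module
  have e2 : edge Q (k + 2) = α • a + β • b - l • c := by
    unfold edge
    rw [show (k : ℤ) + 2 + 1 = k + 3 by ring, hx', hy', hx, hy]
    module
  have hP3 : P (k + 3) = P 0 := by
    have := h 0
    rw [← this]
    congr 1
    push_cast; ring
  have e3 : edge Q (k + 3) = (1 - β) • b := by
    unfold edge
    rw [show (k : ℤ) + 3 + 1 = k + 4 by ring, hy', h4, hy, hb]
    unfold edge
    rw [show (((k + 3 : ℕ) : ℤ) - 1) = k + 2 by push_cast; ring,
      show (k : ℤ) + 2 + 1 = k + 3 by ring, hP3]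
    module
  have e4 : edge Q (k + 4) = edge P 0 := by
    unfold edge
    rw [show (k : ℤ) + 4 + 1 = k + 5 by ring, h5, h4, zero_add]
  rw [maxima_eq_sum' hper, Finset.sum_range_succ, Finset.sum_range_succ, Finset.sum_range_succ,
    Finset.sum_range_succ]
  push_cast
  rw [show (k : ℤ) + 1 + 1 = k + 2 by ring, show (k : ℤ) + 2 + 1 = k + 3 by ring,
    show (k : ℤ) + 3 + 1 = k + 4 by ring, e1, e2, e3, e4, hedge k (by positivity) (by omega)]
  congr 4
  unfold common
  refine Finset.sum_congr rfl (fun i hi => ?_)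
  have := Finset.mem_range.1 hi
  rw [hedge i (by positivity) (by omega), hedge (i + 1) (by positivity) (by omega)]

/-! ### the sign analysis -/

theorem bad_pos {A x z l α ρ : ℝ} (hα : 0 < α) (hα1 : α < 1) (hρ : 0 < ρ) (hz : 0 < z)
    (hA : A < 0) (hx' : 0 < (1 - α) * x + l * A) (hy' : α * x + α * ρ * z - l * A < 0) :
    l < 0 ∧ |x| ≤ (1 / α + 1 / (1 - α)) * (1 + 1 / ρ) * (|l| * |A|) ∧
      |z| ≤ (1 / α + 1 / (1 - α)) * (1 + 1 / ρ) * (|l| * |A|) := by
  have h1α : 0 < 1 - α := by linarith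
  have hl : l < 0 := by
    by_contra h
    have h1 : l * A ≤ 0 := mul_nonpos_of_nonneg_of_nonpos (not_lt.1 h) hA.le
    have h2 : 0 < (1 - α) * x := by linarith
    have h3 : 0 < x := by
      by_contra h'
      have := mul_nonpos_of_nonneg_of_nonpos h1α.le (not_lt.1 h')
      linarith
    have h4 : 0 < α * x := by positivity
    have h5 : 0 < α * ρ * z := by positivity
    linarith
  have hq : |l| * |A| = l * A := by
    rw [abs_of_neg hl, abs_of_neg hA]; ring
  rw [hq]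
  set q := l * A with hqdef
  have hq0 : 0 < q := mul_pos_of_neg_of_neg hl hA
  have hρ' : 0 < 1 / ρ := by positivity
  have hα' : 0 < 1 / α := by positivity
  have h1α' : 0 < 1 / (1 - α) := by positivity
  have b1 : x < 1 / α * q := by
    have h5 : 0 < α * ρ * z := by positivity
    have : α * x < q := by linarith
    rw [one_div, inv_mul_eq_div, lt_div_iff₀ hα]
    linarith
  have b2 : -(1 / (1 - α) * q) < x := by
    have : -q < (1 - α) * x := by linarith
    rw [one_div, inv_mul_eq_div, ← neg_div, div_lt_iff₀ h1α]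
    linarith
  have b3 : z < 1 / ρ * (1 / α * q + 1 / (1 - α) * q) := by
    have h6 : α * (ρ * z) < q + α * (1 / (1 - α) * q) := by
      have := mul_lt_mul_of_pos_left b2 hα
      linarith
    have h7 : α * (1 / α * q + 1 / (1 - α) * q) = q + α * (1 / (1 - α) * q) := by
      field_simp
    rw [← h7] at h6
    have h8 := lt_of_mul_lt_mul_left h6 hα.le
    rw [one_div ρ, inv_mul_eq_div, lt_div_iff₀ hρ]
    linarith
  have q1 : 0 < 1 / α * q := by positivity
  have q2 : 0 < 1 / (1 - α) * q := by positivity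
  have e : (1 / α + 1 / (1 - α)) * (1 + 1 / ρ) * q =
      (1 / α * q + 1 / (1 - α) * q) + 1 / ρ * (1 / α * q + 1 / (1 - α) * q) := by ring
  rw [e]
  have q3 : 0 < 1 / ρ * (1 / α * q + 1 / (1 - α) * q) := by positivity
  refine ⟨hl, ?_, ?_⟩
  · rw [abs_le]
    constructor <;> linarith
  · rw [abs_of_pos hz]
    linarith

theorem bad_sign {A x z l α ρ : ℝ} (hα : 0 < α) (hα1 : α < 1) (hρ : 0 < ρ) (hz : z ≠ 0)
    (hA : A ≠ 0) (hx' : (1 - α) * x + l * A ≠ 0) (hy' : α * x + α * ρ * z - l * A ≠ 0)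
    (h1 : sg (α * x + α * ρ * z - l * A) ≠ sg ((1 - α) * x + l * A))
    (h2 : sg (α * x + α * ρ * z - l * A) ≠ sg z)
    (h3 : sg A ≠ sg ((1 - α) * x + l * A)) :
    l < 0 ∧ |x| ≤ (1 / α + 1 / (1 - α)) * (1 + 1 / ρ) * (|l| * |A|) ∧
      |z| ≤ (1 / α + 1 / (1 - α)) * (1 + 1 / ρ) * (|l| * |A|) := by
  have hxx : sg ((1 - α) * x + l * A) = sg z := by
    revert h1 h2
    cases sg ((1 - α) * x + l * A) <;> cases sg z <;>
      cases sg (α * x + α * ρ * z - l * A) <;> simp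
  rcases lt_or_gt_of_ne hz with hz' | hz'
  · rw [sg_neg hz'] at h2 hxx
    have hy : 0 < α * x + α * ρ * z - l * A := by
      rcases lt_or_gt_of_ne hy' with h | h
      · exact absurd (sg_neg h) h2
      · exact h
    have hx : (1 - α) * x + l * A < 0 := by
      rcases lt_or_gt_of_ne hx' with h | h
      · exact h
      · rw [sg_pos h] at hxx; simp at hxx
    have hAp : 0 < A := by
      rcases lt_or_gt_of_ne hA with h | h
      · rw [sg_neg h, hxx] at h3; simp at h3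
      · exact h
    have := bad_pos (A := -A) (x := -x) (z := -z) (l := l) hα hα1 hρ (by linarith) (by linarith)
      (by linarith) (by linarith)
    rwa [abs_neg, abs_neg, abs_neg] at this
  · rw [sg_pos hz'] at h2 hxx
    have hy : α * x + α * ρ * z - l * A < 0 := by
      rcases lt_or_gt_of_ne hy' with h | h
      · exact h
      · exact absurd (sg_pos h) h2
    have hx : 0 < (1 - α) * x + l * A := by
      rcases lt_or_gt_of_ne hx' with h | h
      · rw [sg_neg h] at hxx; simp at hxx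
      · exact h
    have hAp : A < 0 := by
      rcases lt_or_gt_of_ne hA with h | h
      · exact h
      · rw [sg_pos h, hxx] at h3; simp at h3
    exact bad_pos hα hα1 hρ hz' hAp hx hy

/-- The main dichotomy. -/
theorem core (k : ℕ) (hk : 1 ≤ k) (P : ℤ → E3) (h : ∀ i, P (i + (k + 3 : ℕ)) = P i)
    (hgen : Gen (k + 3) P) (M : ℕ) (hM : ∀ v, maxima (k + 3) P v ≤ M) (α ρ : ℝ) (hα : 0 < α)
    (hα1 : α < 1) (hρ : 0 < ρ) (hαρ : α * ρ < 1) :
    ∃ η : ℝ, 0 < η ∧ ∀ l : ℝ, |l| < η → ∀ v : E3, (∀ i : ℕ, i < k + 3 → v ⬝ᵥ edge P i ≠ 0) →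
      v ⬝ᵥ ((1 - α) • edge P (k + 1) + l • edge P k) ≠ 0 →
      v ⬝ᵥ (α • edge P (k + 1) + (α * ρ) • edge P (k + 2) - l • edge P k) ≠ 0 →
      maxima (k + 3 + 1) (cutP (k + 3) P
        (P (((k + 3 : ℕ) : ℤ) - 1) - α • edge P (k + 1) + l • edge P k)
        (P (((k + 3 : ℕ) : ℤ) - 1) + (α * ρ) • edge P (k + 2))) v ≤ M ∨
      (l < 0 ∧ maxima (k + 3 + 1) (cutP (k + 3) P
        (P (((k + 3 : ℕ) : ℤ) - 1) - α • edge P (k + 1) + l • edge P k)
        (P (((k + 3 : ℕ) : ℤ) - 1) + (α * ρ) • edge P (k + 2))) v ≤ maxima (k + 3) P v + 1 ∧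
        |v ⬝ᵥ edge P (k + 1)| ≤ (1 / α + 1 / (1 - α)) * (1 + 1 / ρ) * (|l| * |v ⬝ᵥ edge P k|) ∧
        |v ⬝ᵥ edge P (k + 2)| ≤
          (1 / α + 1 / (1 - α)) * (1 + 1 / ρ) * (|l| * |v ⬝ᵥ edge P k|)) := by
  have h1α : 0 < 1 - α := by linarith
  obtain ⟨ε, hε, hflip⟩ := exists_flip (k + 3) (k + 1) P hgen (by omega) (by omega)
  set K : ℝ := 3 * ‖edge P k‖ + 1 with hK
  have hK0 : 0 < K := by positivity
  refine ⟨ε * (α * (1 - α)) / K, by positivity, fun l hl v hv hx' hy' => ?_⟩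
  have hv0 : 0 < ‖v‖ := by
    rw [norm_pos_iff]
    rintro rfl
    exact hv 0 (by omega) (zero_dotProduct _)
  have hA := hv k (by omega)
  have hx := hv (k + 1) (by omega)
  have hz := hv (k + 2) (by omega)
  have hd := hv 0 (by omega)
  push_cast at hx hz hd
  rw [maxima_cut k hk P h v _ _ _ α (α * ρ) l rfl rfl, maxima_P k P h v]
  have ex' : v ⬝ᵥ ((1 - α) • edge P (k + 1) + l • edge P k) =
      (1 - α) * (v ⬝ᵥ edge P (k + 1)) + l * (v ⬝ᵥ edge P k) := by
    rw [dot_add, dot_smul, dot_smul]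
  have ey' : v ⬝ᵥ (α • edge P (k + 1) + (α * ρ) • edge P (k + 2) - l • edge P k) =
      α * (v ⬝ᵥ edge P (k + 1)) + α * ρ * (v ⬝ᵥ edge P (k + 2)) - l * (v ⬝ᵥ edge P k) := by
    rw [dotProduct_sub, dot_add, dot_smul, dot_smul, dot_smul]
  have ez' : v ⬝ᵥ ((1 - α * ρ) • edge P (k + 2)) = (1 - α * ρ) * (v ⬝ᵥ edge P (k + 2)) := dot_smul _ _ _
  rw [ex'] at hx'
  rw [ey'] at hy'
  rw [ex', ey', ez']
  have hlA : |l * (v ⬝ᵥ edge P k)| < ε * (α * (1 - α)) * ‖v‖ := by
    rw [abs_mul]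
    have h1 := abs_dot_le v (edge P k)
    have h2 : |v ⬝ᵥ edge P k| ≤ K * ‖v‖ := by
      rw [hK]; nlinarith [norm_nonneg (edge P (k : ℤ))]
    have h3 : |l| * |v ⬝ᵥ edge P k| ≤ |l| * (K * ‖v‖) := mul_le_mul_of_nonneg_left h2 (abs_nonneg _)
    have h4 : |l| * (K * ‖v‖) < ε * (α * (1 - α)) / K * (K * ‖v‖) :=
      mul_lt_mul_of_pos_right hl (by positivity)
    have h5 : ε * (α * (1 - α)) / K * (K * ‖v‖) = ε * (α * (1 - α)) * ‖v‖ := by
      field_simp
    linarith
  have hval := hM v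
  rw [maxima_P k P h v] at hval
  set A := v ⬝ᵥ edge P k with hAd
  set x := v ⬝ᵥ edge P (k + 1) with hxd
  set z := v ⬝ᵥ edge P (k + 2) with hzd
  set d := v ⬝ᵥ edge P 0 with hdd
  have hz2 : (1 - α * ρ) * z ≠ 0 := mul_ne_zero (by linarith) hz
  have sgz : sg ((1 - α * ρ) * z) = sg z := sg_congr (by
    have : 0 < 1 - α * ρ := by linarith
    have h2 : 0 < z * z := mul_self_pos.2 hz
    calc 0 < (1 - α * ρ) * (z * z) := by positivity
      _ = _ := by ring)
  rw [D_eq hx', D_eq hy', D_eq hz2, D_eq hd, D_eq hx, D_eq hz, D_eq hd, sgz]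
  rw [D_eq hx, D_eq hz, D_eq hd] at hval
  by_cases hbig : |x| ≤ ε * ‖v‖
  · -- both signs are available
    obtain ⟨v', hv'1, hv'2⟩ := hflip v hv (by
      rw [show (((k + 1 : ℕ) : ℤ)) = (k : ℤ) + 1 by push_cast; ring]; exact hbig)
    have hother : common k P v' = common k P v := by
      unfold common
      refine Finset.sum_congr rfl (fun i hi => ?_)
      have hi' := Finset.mem_range.1 hi
      have h1 := hv'2 i (by omega) (by omega)
      have h2 := hv'2 (i + 1) (by omega) (by omega)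
      push_cast at h2
      exact (D_congr h1 h2).symm
    have hM' := hM v'
    rw [maxima_P k P h v', hother] at hM'
    have sA := sg_congr (hv'2 k (by omega) (by omega))
    have sz := sg_congr (hv'2 (k + 2) (by omega) (by omega))
    have sd := sg_congr (hv'2 0 (by omega) (by omega))
    push_cast at sz sd hv'1
    have nz' : v' ⬝ᵥ edge P (k + 2) ≠ 0 := by
      have := hv'2 (k + 2) (by omega) (by omega)
      push_cast at this
      exact (ne_of_gt this |> mul_ne_zero_iff.1).2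
    have nd' : v' ⬝ᵥ edge P 0 ≠ 0 := by
      have := hv'2 0 (by omega) (by omega)
      push_cast at this
      exact (ne_of_gt this |> mul_ne_zero_iff.1).2
    have nx' : v' ⬝ᵥ edge P (k + 1) ≠ 0 := by
      rw [hv'1]; exact neg_ne_zero.2 hx
    rw [D_eq nx', D_eq nz', D_eq nd', ← sA, ← sz, ← sd, hv'1, ← hxd, sg_flip hx, ← hAd, ← hzd,
      ← hdd] at hM'
    have hall : ∀ t : Bool, common k P v + B (sg A) t + B t (sg z) + B (sg z) (sg d) ≤ M := by
      intro t
      by_cases ht : t = sg x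
      · rw [ht]; exact hval
      · have : t = !sg x := by
          revert ht; cases t <;> cases sg x <;> simp
        rw [this]; exact hM'
    by_cases c1 : sg (α * x + α * ρ * z - l * A) = sg ((1 - α) * x + l * A) ∨
        sg (α * x + α * ρ * z - l * A) = sg z
    · left
      have e := B_plain (sg A) _ _ _ (sg d) c1
      have := hall (sg ((1 - α) * x + l * A))
      omega
    · push Not at c1
      by_cases c2 : sg A = sg ((1 - α) * x + l * A)
      · left
        have e := B_same _ _ _ _ (sg d) c1.1 c1.2 c2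
        have := hall (sg (α * x + α * ρ * z - l * A))
        omega
      · right
        obtain ⟨hl0, hb1, hb2⟩ := bad_sign hα hα1 hρ hz hA hx' hy' c1.1 c1.2 c2
        refine ⟨hl0, ?_, hb1, hb2⟩
        have e := B_extra _ _ _ _ (sg d) (sg x) c1.1 c1.2 c2
        omega
  · -- the sign of `x` does not change
    left
    have hbig' : ε * ‖v‖ < |x| := not_le.1 hbig
    have hlt : |l * A| < α * (1 - α) * |x| := by
      refine hlA.trans ?_
      have := mul_lt_mul_of_pos_left hbig' (by positivity : 0 < α * (1 - α))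
      linarith
    have hxx : |x| * |x| = x * x := abs_mul_abs_self x
    have hx2 : 0 < x * x := mul_self_pos.2 hx
    have hprod : |l * A * x| < α * (1 - α) * (x * x) := by
      rw [abs_mul, ← hxx]
      have := mul_lt_mul_of_pos_right hlt (abs_pos.2 hx)
      linarith
    have hb := abs_lt.1 hprod
    have hα2 : α * (1 - α) * (x * x) < (1 - α) * (x * x) := by
      have : 0 < (1 - α) * ((1 - α) * (x * x)) := by positivity
      nlinarith
    have hα3 : α * (1 - α) * (x * x) < α * (x * x) := by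
      have : 0 < α * (α * (x * x)) := by positivity
      nlinarith
    have sx : sg ((1 - α) * x + l * A) = sg x := sg_congr (by nlinarith [hb.1])
    have c1 : sg (α * x + α * ρ * z - l * A) = sg ((1 - α) * x + l * A) ∨
        sg (α * x + α * ρ * z - l * A) = sg z := by
      rw [sx]
      by_cases hzx : 0 < z * x
      · left
        refine sg_congr ?_
        have : 0 < α * ρ * (z * x) := by positivity
        nlinarith [hb.2]
      · have hne : sg z ≠ sg x := by
          intro he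
          apply hzx
          rcases lt_or_gt_of_ne hz with h1 | h1 <;> rcases lt_or_gt_of_ne hx with h2 | h2
          · exact mul_pos_of_neg_of_neg h1 h2
          · rw [sg_neg h1, sg_pos h2] at he; simp at he
          · rw [sg_pos h1, sg_neg h2] at he; simp at he
          · exact mul_pos h1 h2
        revert hne
        cases sg (α * x + α * ρ * z - l * A) <;> cases sg z <;> cases sg x <;> simp
    have e := B_plain (sg A) _ _ _ (sg d) c1
    rw [sx] at e
    rw [sx]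
    omega

/-! ### the three theorems -/

/-- SB-E1. Only finitely many ratios are bad. -/
theorem finite_bad_rho (n : ℕ) (P : ℤ → E3) (_hper : ∀ i, P (i + n) = P i) (hgen : Gen n P) :
    {ρ : ℝ | ∃ j k : ℤ, 0 ≤ j ∧ j < k ∧ k < n - 2 ∧
      det3 (edge P (n - 2) + ρ • edge P (n - 1)) (edge P j) (edge P k) = 0}.Finite := by
  have h1 : {ρ : ℝ | ∃ j k : ℤ, 0 ≤ j ∧ j < k ∧ k < n - 2 ∧
      det3 (edge P (n - 2) + ρ • edge P (n - 1)) (edge P j) (edge P k) = 0} ⊆
      ⋃ j ∈ Finset.Ico (0 : ℤ) n, ⋃ k ∈ Finset.Ico (0 : ℤ) n,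
        {ρ : ℝ | j < k ∧ k < n - 2 ∧ 0 ≤ j ∧
          det3 (edge P (n - 2) + ρ • edge P (n - 1)) (edge P j) (edge P k) = 0} := by
    rintro ρ ⟨j, k, h1, h2, h3, h4⟩
    simp only [Set.mem_iUnion, Finset.mem_Ico]
    exact ⟨j, ⟨h1, by omega⟩, k, ⟨by omega, by omega⟩, h2, h3, h1, h4⟩
  refine Set.Finite.subset ?_ h1
  refine Set.Finite.biUnion (Finset.finite_toSet _) (fun j _ => ?_)
  refine Set.Finite.biUnion (Finset.finite_toSet _) (fun k _ => ?_)
  refine Set.Subsingleton.finite ?_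
  rintro r ⟨h1, h2, h3, h4⟩ r' ⟨_, _, _, h4'⟩
  rw [det3_add_smul] at h4 h4'
  have hb : det3 (edge P (n - 1)) (edge P j) (edge P k) ≠ 0 := by
    rw [det3_cyc]
    exact hgen j k (n - 1) h1 (by omega) (by omega)
  have : (r - r') * det3 (edge P (n - 1)) (edge P j) (edge P k) = 0 := by linarith
  rcases mul_eq_zero.1 this with h5 | h5
  · linarith
  · exact absurd h5 hb

theorem gen_ne_zero {n : ℕ} (hn : 4 ≤ n) {P : ℤ → E3} (hgen : Gen n P) (i : ℤ) : edge P i ≠ 0 := by
  intro h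
  apply hgen i (i + 1) (i + 2) (by omega) (by omega) (by omega)
  rw [h]
  unfold det3
  simp

/-- Reduction to generic directions. -/
theorem reduce (k : ℕ) (P : ℤ → E3) (hgen : Gen (k + 3) P) (hk : 1 ≤ k) (M : ℕ) (α β l : ℝ)
    (hα : 0 < α) (hα1 : α < 1) (Q : ℤ → E3)
    (H : ∀ v : E3, (∀ i : ℕ, i < k + 3 → v ⬝ᵥ edge P i ≠ 0) →
      v ⬝ᵥ ((1 - α) • edge P (k + 1) + l • edge P k) ≠ 0 →
      v ⬝ᵥ (α • edge P (k + 1) + β • edge P (k + 2) - l • edge P k) ≠ 0 →
      maxima (k + 3 + 1) Q v ≤ M) (v : E3) : maxima (k + 3 + 1) Q v ≤ M := by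
  set S : Set E3 := (fun i : ℕ => edge P i) '' (Set.Iio (k + 3)) ∪
    {(1 - α) • edge P (k + 1) + l • edge P k,
      α • edge P (k + 1) + β • edge P (k + 2) - l • edge P k} with hS
  have hfin : S.Finite := by
    refine Set.Finite.union ((Set.finite_Iio _).image _) ?_
    exact (Set.finite_singleton _).insert _
  have hT : det3 (edge P k) (edge P (k + 1)) (edge P (k + 2)) ≠ 0 :=
    hgen k (k + 1) (k + 2) (by omega) (by omega) (by push_cast; omega)
  refine bound_of_generic _ _ M S hfin (fun v hv => H v ?_ ?_ ?_) v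
  · intro i hi
    exact hv _ (Or.inl ⟨i, hi, rfl⟩) (gen_ne_zero (by omega) hgen i)
  · refine hv _ (Or.inr (Or.inl rfl)) ?_
    intro h0
    have e : det3 (edge P k) ((1 - α) • edge P (k + 1) + l • edge P k) (edge P (k + 2)) =
        (1 - α) * det3 (edge P k) (edge P (k + 1)) (edge P (k + 2)) := by
      unfold det3
      simp only [Pi.add_apply, Pi.smul_apply, smul_eq_mul]
      ring
    rw [h0] at e
    have e0 : det3 (edge P k) 0 (edge P (k + 2)) = 0 := by unfold det3; simp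
    rw [e0] at e
    exact mul_ne_zero (by linarith) hT e.symm
  · refine hv _ (Or.inr (Or.inr rfl)) ?_
    intro h0
    have e : det3 (edge P k) (α • edge P (k + 1) + β • edge P (k + 2) - l • edge P k)
        (edge P (k + 2)) = α * det3 (edge P k) (edge P (k + 1)) (edge P (k + 2)) := by
      unfold det3
      simp only [Pi.add_apply, Pi.sub_apply, Pi.smul_apply, smul_eq_mul]
      ring
    rw [h0] at e
    have e0 : det3 (edge P k) 0 (edge P (k + 2)) = 0 := by unfold det3; simp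
    rw [e0] at e
    exact mul_ne_zero hα.ne' hT e.symm

/-- SB-E2. Inserting a tiny edge of the same torsion sign (`l > 0`). -/
theorem insertion_free (n : ℕ) (hn : 4 ≤ n) (P : ℤ → E3) (hper : ∀ i, P (i + n) = P i)
    (hgen : Gen n P) (M : ℕ) (hM : ∀ v, maxima n P v ≤ M) (α ρ : ℝ) (hα : 0 < α) (hα1 : α < 1)
    (hρ : 0 < ρ) (hαρ : α * ρ < 1)
    (hbad : ∀ j k : ℤ, 0 ≤ j → j < k → k < n - 2 →
      det3 (edge P (n - 2) + ρ • edge P (n - 1)) (edge P j) (edge P k) ≠ 0) :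
    ∀ᶠ l : ℝ in 𝓝[>] 0, ∀ v, maxima (n + 1)
      (cutP n P (P (n - 1) - α • edge P (n - 2) + l • edge P (n - 3))
        (P (n - 1) + (α * ρ) • edge P (n - 1))) v ≤ M := by
  obtain ⟨k, rfl⟩ : ∃ k, n = k + 3 := ⟨n - 3, by omega⟩
  have hk : 1 ≤ k := by omega
  obtain ⟨η, hη, hcore⟩ := core k hk P hper hgen M hM α ρ hα hα1 hρ hαρ
  filter_upwards [Ioo_mem_nhdsGT hη] with l hl v
  rw [show ((k + 3 : ℕ) : ℤ) - 2 = (k : ℤ) + 1 by push_cast; ring,
    show ((k + 3 : ℕ) : ℤ) - 3 = (k : ℤ) by push_cast; ring]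
  have e1 : edge P (((k + 3 : ℕ) : ℤ) - 1) = edge P ((k : ℤ) + 2) := by
    congr 1; push_cast; ring
  rw [e1]
  refine reduce k P hgen hk M α (α * ρ) l hα hα1 _ (fun v h1 h2 h3 => ?_) v
  rcases hcore l (by rw [abs_of_pos hl.1]; exact hl.2) v h1 h2 h3 with h | h
  · exact h
  · exact absurd h.1 (not_lt.2 hl.1.le)

theorem exists_nat_edge {n : ℕ} (hn : 4 ≤ n) {P : ℤ → E3} (hper : ∀ i, P (i + n) = P i) (i : ℤ) :
    ∃ j : ℕ, j < n ∧ edge P i = edge P j := by
  have h0 : ∀ (m : ℕ) (i : ℤ), edge P (i + m * n) = edge P i := by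
    intro m
    induction m with
    | zero => intro i; simp
    | succ m ih =>
      intro i
      rw [← ih i, ← edge_per hper (i + m * n)]
      congr 1
      push_cast; ring
  have h1 : ∀ (m : ℤ) (i : ℤ), edge P (i + m * n) = edge P i := by
    intro m i
    rcases Int.eq_nat_or_neg m with ⟨m, rfl | rfl⟩
    · exact h0 m i
    · rw [← h0 m (i + -(m : ℤ) * n)]
      congr 1
      ring
  refine ⟨(i % n).toNat, ?_, ?_⟩
  · have := Int.emod_lt_of_pos i (show (0 : ℤ) < n by omega)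
    have h2 := Int.emod_nonneg i (show (n : ℤ) ≠ 0 by omega)
    omega
  · rw [Int.toNat_of_nonneg (Int.emod_nonneg i (show (n : ℤ) ≠ 0 by omega)),
      ← h1 (i / n) (i % n)]
    congr 1
    have := Int.emod_add_mul_ediv i n
    linarith

/-- SB-E3. Inserting a tiny edge of any torsion sign at a slack place. -/
theorem insertion_slack (n : ℕ) (hn : 4 ≤ n) (P : ℤ → E3) (hper : ∀ i, P (i + n) = P i)
    (hgen : Gen n P) (M : ℕ) (hM : ∀ v, maxima n P v ≤ M) (α ρ : ℝ) (hα : 0 < α) (hα1 : α < 1)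
    (hρ : 0 < ρ) (hαρ : α * ρ < 1)
    (hbad : ∀ j k : ℤ, 0 ≤ j → j < k → k < n - 2 →
      det3 (edge P (n - 2) + ρ • edge P (n - 1)) (edge P j) (edge P k) ≠ 0)
    (hslack : ∀ᶠ v in 𝓝 (crossProduct (edge P (n - 2)) (edge P (n - 1))),
      maxima n P v + 1 ≤ M) :
    ∀ᶠ l : ℝ in 𝓝 0, ∀ v, maxima (n + 1)
      (cutP n P (P (n - 1) - α • edge P (n - 2) + l • edge P (n - 3))
        (P (n - 1) + (α * ρ) • edge P (n - 1))) v ≤ M := by
  obtain ⟨k, rfl⟩ : ∃ k, n = k + 3 := ⟨n - 3, by omega⟩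
  have hk : 1 ≤ k := by omega
  obtain ⟨η, hη, hcore⟩ := core k hk P hper hgen M hM α ρ hα hα1 hρ hαρ
  have e1 : edge P (((k + 3 : ℕ) : ℤ) - 1) = edge P ((k : ℤ) + 2) := by
    congr 1; push_cast; ring
  rw [show ((k + 3 : ℕ) : ℤ) - 2 = (k : ℤ) + 1 by push_cast; ring, e1] at hslack
  rw [show ((k + 3 : ℕ) : ℤ) - 2 = (k : ℤ) + 1 by push_cast; ring,
    show ((k + 3 : ℕ) : ℤ) - 3 = (k : ℤ) by push_cast; ring, e1]
  set a := edge P ((k : ℤ) + 1) with ha
  set b := edge P ((k : ℤ) + 2) with hb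
  set c := edge P (k : ℤ) with hc
  obtain ⟨δ, hδ, hball⟩ := Metric.eventually_nhds_iff.1 hslack
  have hT : det3 a b c ≠ 0 := by
    rw [det3_cyc, det3_cyc]
    exact hgen k (k + 1) (k + 2) (by omega) (by omega) (by push_cast; omega)
  have h1α : 0 < 1 - α := by linarith
  set C : ℝ := (1 / α + 1 / (1 - α)) * (1 + 1 / ρ) with hC
  have hC0 : 0 < C := by positivity
  set R : ℝ := C * (‖crossProduct b c‖ + ‖crossProduct c a‖) + 1 with hR
  have hR0 : 0 < R := by positivity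
  have hnear : ∀ᶠ l : ℝ in 𝓝 0, |l| < min η (δ / R) := by
    have : Metric.ball (0 : ℝ) (min η (δ / R)) ∈ 𝓝 (0 : ℝ) :=
      Metric.ball_mem_nhds _ (lt_min hη (by positivity))
    filter_upwards [this] with l hl
    rwa [mem_ball_zero_iff, Real.norm_eq_abs] at hl
  filter_upwards [hnear] with l hl v
  refine reduce k P hgen hk M α (α * ρ) l hα hα1 _ (fun v h1 h2 h3 => ?_) v
  rcases hcore l (lt_of_lt_of_le hl (min_le_left _ _)) v h1 h2 h3 with h | ⟨hl0, hle, hx, hz⟩
  · exact h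
  refine hle.trans ?_
  have hA : v ⬝ᵥ c ≠ 0 := h1 k (by omega)
  set w : E3 := (det3 a b c / (v ⬝ᵥ c)) • v with hw
  have ew : w - crossProduct a b = ((v ⬝ᵥ a) / (v ⬝ᵥ c)) • crossProduct b c +
      ((v ⬝ᵥ b) / (v ⬝ᵥ c)) • crossProduct c a := by
    have e := det_smul_eq a b c v
    have e2 : w = (v ⬝ᵥ c)⁻¹ • (det3 a b c • v) := by
      rw [hw, smul_smul]; congr 1; rw [div_eq_inv_mul]
    rw [e2, e, smul_add, smul_add, smul_smul, smul_smul, smul_smul, inv_mul_cancel₀ hA, one_smul,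
      ← div_eq_inv_mul, ← div_eq_inv_mul, add_sub_cancel_right]
  have hdist : dist w (crossProduct a b) < δ := by
    rw [dist_eq_norm, ew]
    refine lt_of_le_of_lt (norm_add_le _ _) ?_
    rw [norm_smul, norm_smul, Real.norm_eq_abs, Real.norm_eq_abs, abs_div, abs_div]
    have hAp : 0 < |v ⬝ᵥ c| := abs_pos.2 hA
    have i1 : |v ⬝ᵥ a| / |v ⬝ᵥ c| ≤ C * |l| := by
      rw [div_le_iff₀ hAp]; linarith
    have i2 : |v ⬝ᵥ b| / |v ⬝ᵥ c| ≤ C * |l| := by
      rw [div_le_iff₀ hAp]; linarith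
    have i3 := mul_le_mul_of_nonneg_right i1 (norm_nonneg (crossProduct b c))
    have i4 := mul_le_mul_of_nonneg_right i2 (norm_nonneg (crossProduct c a))
    have i5 : |l| * R < δ := by
      have := lt_of_lt_of_le hl (min_le_right _ _)
      rwa [lt_div_iff₀ hR0] at this
    have i6 : C * |l| * ‖crossProduct b c‖ + C * |l| * ‖crossProduct c a‖ ≤ |l| * R := by
      rw [hR]
      nlinarith [abs_nonneg l]
    linarith
  have hwM := hball hdist
  have hne : ∀ i : ℤ, v ⬝ᵥ edge P i ≠ 0 := by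
    intro i
    obtain ⟨j, hj, e⟩ := exists_nat_edge hn hper i
    rw [e]
    exact h1 j hj
  have hmw : maxima (k + 3) P w = maxima (k + 3) P v := by
    have hq : det3 a b c / (v ⬝ᵥ c) ≠ 0 := div_ne_zero hT hA
    rcases lt_or_gt_of_ne hq with h | h
    · rw [hw, show (det3 a b c / (v ⬝ᵥ c)) • v = (-(det3 a b c / (v ⬝ᵥ c))) • (-v) by
        rw [neg_smul, smul_neg, neg_neg], maxima_smul _ _ _ (neg_pos.2 h), maxima_neg hper hne]
    · rw [hw, maxima_smul _ _ _ h]
  omega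

end Pool.Agent.helper69.SB
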